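import Pool.Agent.V5helper89.PW.Main

/-!
# P=W in higher dimensions: fundamental groups, finite coverings and products

For a connected smooth projective variety `X` over `ℂ` and a reductive group `G` let `𝓜(X, G)` be the
quadruple of the Betti moduli space `M_B(X, G)`, the Dolbeault moduli space `M_D(X, G)`, the Hitchin
morphism `h` and the homeomorphism `Ψ : M_B(X, G) → M_D(X, G)`. Q1 is the statement `W_{2k+1} = W_{2k}` in
`IH^•(M_B(X, G))`, and Q2 the statement `Ψ_* W_{2k} = P_k`, for the perverse filtration `P` of `h`.

Theorem. (1) The class of all quadruples (of varieties `B`, `D`, a proper morphism `h : D → V` to an affine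
variety and a homeomorphism `B ≅ D`) for which Q1, respectively Q1 and Q2 (P=W), holds is invariant under
isomorphisms of the Betti spaces which extend to a morphism of the quadruples, it descends along finite
coverings, and a product belongs to it if and only if the factors do. (2) If `f : Y → X` induces an
isomorphism of étale fundamental groups, then Q1 and Q2 hold for `(X, G)`, in any given degree, if and only if
they hold for `(Y, G)`, for all reductive groups `G`; so it is enough to treat any class of varieties which
contains for each `X` such a `Y` (for example the surfaces: sections of `X × ℙ^N`; birational morphisms,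
projective bundles, ample complete intersections of dimension at least two are morphisms of this kind).
(3) The class of the varieties for which P=W holds for `GL_m`, `m ≤ n`, is closed under products and, in both
directions, under the morphisms in (2); and it contains `X` if all semisimple representations of `π_1(X)`
of dimension at most `n` are sums of representations `Ind ρ_j` induced from finite étale coverings
`Y_j` such that P=W holds for `Y_j` and `GL_{a_j}`, `a_j = dim ρ_j`. For example, `a_j = 1` suffices if `π_1(X)`
is abelian or nilpotent, and P=W is known for `GL_1`.

Idea of the proof. (a) The morphism `h : M_D(X, G) → 𝒱(X, G)` and the composition of `h_Y` with the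
pull-back `f^* : M_D(X, G) → M_D(Y, G)` factor through the image `Z` of `h`, and `Z → 𝒱(Y, G)` is proper (as
`h_Y ∘ f^*` is proper: `f^*` is a homeomorphism, hence finite) and affine, so it is finite. Push-forwards by
finite morphisms are exact for the perverse t-structures; so the two morphisms define the same perverse
filtration on `IH^•(M_D(X, G))`. (b) For a finite covering `u : N → M` the intersection complex of `M` is a
direct summand of the push-forward of the one of `N`, in a topological way; so both filtrations on
`IH^•(M)` are induced by those on `IH^•(N)`. (c) The Künneth formula for both filtrations; a filtration is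
determined by its tensor product with a filtration which starts at zero and contains the unit class in degree
zero. (d) The semisimple representations of `π_1(X) × π_1(Y)` are of the form `(ρ ⊠ σ) ⊕ τ`: induction on
the dimension with (b) and (c).
-/

set_option autoImplicit false

open CategoryTheory CategoryTheory.Limits AlgebraicGeometry Pool.Agent.V5helper89.PW

namespace Pool.Agent.Results.MP_65ad7c_ag.ProductsAndCoverings

/-- **P=W in higher dimensions: fundamental groups, finite coverings and products.**

(1) Q1 (`Quad.Even`) and P=W (`Quad.PW`: Q1 and Q2, in all degrees) have the permanence properties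
`Calculus` for quadruples: invariance under morphisms `𝓝 → 𝓜` which are isomorphisms of the Betti spaces;
descent for finite coverings `𝓝_i → 𝓜`; a product has the property if and only if both factors have.

(2) Let `𝓖` be the moduli spaces for a reductive group. If `f : Y ⟶ X` induces an isomorphism of étale
fundamental groups, then Q1 in degree `k` holds for `X` if and only if it holds for `Y`, and Q2 in degree `k`
holds for `X` if and only if it holds for `Y`. If `S` is a class of varieties such that for every `X` there is such
a morphism `Y ⟶ X` with `Y` in `S`, then Q1, respectively Q2, in degree `k` holds for all `X` if and only if it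
holds for all `X` in `S`.

(3) Let `R` be Q1 or P=W, and `n` an integer. Let `𝒜` be the class of the varieties `X` with the property `R`
for all groups `GL_m`, `m ≤ n`. Then `𝒜` is closed under products and, in both directions, under morphisms
`Y ⟶ X` which induce an isomorphism of étale fundamental groups; and `X` is in `𝒜` if there are finitely many
finite étale coverings `p_j : Y_j ⟶ X` of degree `d_j` and integers `a_j > 0` such that `R` holds for `Y_j` and
the group `GL_{a_j}` and such that every semisimple representation of `π_1(X)` of dimension `m`, `0 < m ≤ n`,
is of the form `Ind ρ ⊕ τ` with a representation `ρ` of `π_1(Y_j)` of dimension `a_j`, for some `j`. -/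
theorem result {T : Topology} (hT : IsTopology T) :
    (Calculus (Quad.Even (T := T)) ∧ Calculus (Quad.PW (T := T))) ∧
    (∀ 𝓖 : Moduli T, IsModuli 𝓖 → ∀ k : ℤ,
      𝓖.Invariant k ∧ ∀ S : Sch → Prop, Dense S → 𝓖.ReducesTo k S) ∧
    ∀ 𝓛 : Linear T, IsLinear 𝓛 → ∀ R : Quad T → Prop, (R = Quad.Even ∨ R = Quad.PW) → ∀ n : ℕ,
      (∀ X : Sch, Gen (fun Y => 𝓛.UpTo R n Y) X → 𝓛.UpTo R n X) ∧
      ∀ X : Sch, IsSmProj X → ∀ (κ : Type) [Finite κ] (Y : κ → Sch) (p : ∀ j, Y j ⟶ X)
        (d a : κ → ℕ), (∀ j, IsCovering (p j) (d j) ∧ 0 < d j ∧ 0 < a j ∧
          R ((𝓛.gl (a j)).M (Y j))) → 𝓛.Induced n X p d a → 𝓛.UpTo R n X := by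
  refine ⟨calculus hT, fun 𝓖 h𝓖 k => ⟨main_inv hT h𝓖 k, fun S hS => main_class hT h𝓖 S hS k⟩,
    fun 𝓛 h𝓛 R hR n => ?_⟩
  have hC : Calculus R := by
    rcases hR with rfl | rfl
    · exact (calculus hT).1
    · exact (calculus hT).2
  have h0 : ∀ X, IsSmProj X → R ((𝓛.gl 0).M X) := by
    rcases hR with rfl | rfl
    · exact fun X hX k => (h𝓛.zero X hX k).1
    · exact fun X hX => h𝓛.zero X hX
  exact ⟨fun X hX => upTo_gen hC h𝓛 h0 n hX, fun X hX κ _ Y p d a h hs =>
    upTo_induced hC h𝓛 h0 hX n p d a (fun j => (h j).1) (fun j => (h j).2.1)
      (fun j => (h j).2.2.1) hs fun j => (h j).2.2.2⟩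

end Pool.Agent.Results.MP_65ad7c_ag.ProductsAndCoverings
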